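import Mathlib

/-!
# The hyperplane inequality: definitions
-/

set_option autoImplicit false

open MeasureTheory

namespace Pool.H30.HYP

variable {E : Type} [NormedAddCommGroup E] [InnerProductSpace ℝ E]

/-- A test field on `Ω`: a vector field of class `C¹` with compact support contained in the
interior of `Ω` and with Euclidean norm at most one everywhere. -/
def IsTestField (Ω : Set E) (φ : E → E) : Prop :=
  ContDiff ℝ 1 φ ∧ HasCompactSupport φ ∧ tsupport φ ⊆ interior Ω ∧ ∀ x, ‖φ x‖ ≤ 1

/-- The perimeter of `F` relative to `Ω` (De Giorgi): the supremum over all test fields `φ` on `Ω` of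
the integral over `F` of the divergence of `φ`, the trace of its derivative. -/
noncomputable def relPerimeter [FiniteDimensional ℝ E] [MeasurableSpace E] [BorelSpace E]
    (F Ω : Set E) : ENNReal :=
  ⨆ (φ : E → E) (_ : IsTestField Ω φ),
    ENNReal.ofReal (∫ x in F, LinearMap.trace ℝ E (fderiv ℝ φ x))

/-- The inequality of the hyperplane conjecture with the constant `C` in the Euclidean space `E` of
dimension `n ≥ 1`: for every bounded convex symmetric set `Ω` of positive volume there is `a ≠ 0`
such that, for every measurable `F ⊆ Ω` of half the volume, the `(n-1)`-dimensional measure of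
`Ω ∩ a^⊥` is at most `C` times the smaller of the perimeter of `F` relative to `Ω` and the measure of
the part of the topological boundary of `F` in `Ω`. -/
def Hyperplane (C : NNReal) (E : Type) [NormedAddCommGroup E] [InnerProductSpace ℝ E]
    [FiniteDimensional ℝ E] [MeasurableSpace E] [BorelSpace E] : Prop :=
  ∀ n, Module.finrank ℝ E = n → 1 ≤ n → ∀ Ω : Set E, Convex ℝ Ω → Bornology.IsBounded Ω →
    (∀ x ∈ Ω, -x ∈ Ω) → 0 < volume Ω → ∃ a : E, a ≠ 0 ∧ ∀ F ⊆ Ω, MeasurableSet F →
      volume F = volume Ω / 2 → μHE[n - 1] {x | x ∈ Ω ∧ inner ℝ a x = 0} ≤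
        C * min (relPerimeter F Ω) (μHE[n - 1] (Ω ∩ frontier F))

end Pool.H30.HYP
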