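import Pool.Agent.H30.HYP.Old
import Pool.Agent.H30.HYP.Defs

/-!
# The hyperplane inequality in a Euclidean space without coordinates
-/

set_option autoImplicit false

open MeasureTheory Measure Set
open scoped ENNReal NNReal

namespace Pool.H30.HYP

/-- the trace in coordinates -/
theorem trace_coord {n : ℕ} (T : EuclideanSpace ℝ (Fin n) →L[ℝ] EuclideanSpace ℝ (Fin n)) :
    LinearMap.trace ℝ (EuclideanSpace ℝ (Fin n)) T = ∑ i, T (EuclideanSpace.single i 1) i := by
  rw [LinearMap.trace_eq_matrix_trace ℝ (EuclideanSpace.basisFun (Fin n) ℝ).toBasis, Matrix.trace]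
  refine Finset.sum_congr rfl fun i _ => ?_
  rw [Matrix.diag_apply, LinearMap.toMatrix_apply]
  simp

variable {E E' : Type} [NormedAddCommGroup E] [InnerProductSpace ℝ E] [FiniteDimensional ℝ E]
  [MeasurableSpace E] [BorelSpace E] [NormedAddCommGroup E'] [InnerProductSpace ℝ E']
  [FiniteDimensional ℝ E'] [MeasurableSpace E'] [BorelSpace E']

omit [FiniteDimensional ℝ E] [MeasurableSpace E] [BorelSpace E] [FiniteDimensional ℝ E']
  [MeasurableSpace E'] [BorelSpace E'] in
theorem trace_comp (e : E ≃ₗᵢ[ℝ] E') {φ : E' → E'} (hφ : ContDiff ℝ 1 φ) (x : E) :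
    LinearMap.trace ℝ E (fderiv ℝ (fun x => e.symm (φ (e x))) x) =
      LinearMap.trace ℝ E' (fderiv ℝ φ (e x)) := by
  have h1 : HasFDerivAt φ (fderiv ℝ φ (e x)) (e x) :=
    (hφ.differentiable one_ne_zero (e x)).hasFDerivAt
  have h2 : HasFDerivAt (fun x => φ (e x))
      ((fderiv ℝ φ (e x)).comp (e.toContinuousLinearEquiv : E →L[ℝ] E')) x :=
    h1.comp x (e.toContinuousLinearEquiv : E →L[ℝ] E').hasFDerivAt
  have h3 : HasFDerivAt (fun x => e.symm (φ (e x)))
      ((e.symm.toContinuousLinearEquiv : E' →L[ℝ] E).comp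
        ((fderiv ℝ φ (e x)).comp (e.toContinuousLinearEquiv : E →L[ℝ] E'))) x :=
    (e.symm.toContinuousLinearEquiv : E' →L[ℝ] E).hasFDerivAt.comp x h2
  rw [h3.fderiv, ← LinearMap.trace_conj' (fderiv ℝ φ (e x) : E' →ₗ[ℝ] E') e.symm.toLinearEquiv]
  congr 1

omit [FiniteDimensional ℝ E] [MeasurableSpace E] [BorelSpace E] [FiniteDimensional ℝ E']
  [MeasurableSpace E'] [BorelSpace E'] in
theorem field_of (e : E ≃ₗᵢ[ℝ] E') {Ω : Set E} {φ : E' → E'}
    (h : IsTestField (e.symm ⁻¹' Ω) φ) : IsTestField Ω (fun x => e.symm (φ (e x))) := by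
  obtain ⟨h1, h2, h3, h4⟩ := h
  have h5 : HasCompactSupport (φ ∘ e) := h2.comp_homeomorph e.toHomeomorph
  refine ⟨e.symm.toContinuousLinearEquiv.contDiff.comp
    (h1.comp e.toContinuousLinearEquiv.contDiff), h5.comp_left (g := e.symm) (map_zero _), ?_,
    fun x => by rw [e.symm.norm_map]; exact h4 _⟩
  have h6 : tsupport (fun x => e.symm (φ (e x))) ⊆ e ⁻¹' tsupport φ := by
    refine closure_minimal (fun x hx => subset_tsupport φ ?_)
      ((isClosed_tsupport φ).preimage e.continuous)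
    intro h0
    apply hx
    show e.symm (φ (e x)) = 0
    rw [h0, map_zero]
  intro x hx
  have h7 : e x ∈ interior (e.symm ⁻¹' Ω) := h3 (h6 hx)
  have h8 : e.symm ⁻¹' interior Ω = interior (e.symm ⁻¹' Ω) :=
    e.symm.toHomeomorph.preimage_interior Ω
  rw [← h8] at h7
  simpa using h7

theorem relPer_le {n : ℕ} (e : E ≃ₗᵢ[ℝ] EuclideanSpace ℝ (Fin n)) (F Ω : Set E) :
    Old.relPerimeter (e.symm ⁻¹' F) (e.symm ⁻¹' Ω) ≤ relPerimeter F Ω := by
  refine iSup₂_le fun φ h => le_iSup₂_of_le (fun x => e.symm (φ (e x)))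
    (field_of e ⟨h.1, h.2, h.3, h.4⟩) (le_of_eq ?_)
  congr 1
  have mp := e.symm.measurePreserving
  have me : MeasurableEmbedding e.symm := e.symm.toHomeomorph.measurableEmbedding
  rw [← mp.setIntegral_preimage_emb me]
  congr 1
  funext y
  rw [trace_comp e h.1, trace_coord]
  simp [Old.divergence]

theorem main : ∃ C : ℝ≥0, ∀ (E : Type) [NormedAddCommGroup E] [InnerProductSpace ℝ E]
    [FiniteDimensional ℝ E] [MeasurableSpace E] [BorelSpace E], Hyperplane C E := by
  obtain ⟨C, hC⟩ := Old.result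
  refine ⟨C, ?_⟩
  intro E _ _ _ _ _ n hE hn Ω hc hb hs hv
  subst hE
  let e : E ≃ₗᵢ[ℝ] EuclideanSpace ℝ (Fin (Module.finrank ℝ E)) := (stdOrthonormalBasis ℝ E).repr
  have mp := e.symm.measurePreserving
  have me : MeasurableEmbedding e.symm := e.symm.toHomeomorph.measurableEmbedding
  have hH : ∀ (d : ℕ) (S : Set E), μHE[d] (e.symm ⁻¹' S) = μHE[d] S := fun d S => by
    have h := e.symm.isometry.euclideanHausdorffMeasure_preimage (d := d) S
    rwa [e.symm.surjective.range_eq, Set.inter_univ] at h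
  have hV : ∀ S : Set E, volume (e.symm ⁻¹' S) = volume S := fun S =>
    mp.measure_preimage_emb me S
  obtain ⟨a, ha, h⟩ := hC (Module.finrank ℝ E) (e.symm ⁻¹' Ω) hn
    (hc.linear_preimage e.symm.toLinearEquiv.toLinearMap) (by
      have : e.symm ⁻¹' Ω = e '' Ω := by
        ext x
        constructor
        · intro hx; exact ⟨e.symm x, hx, by simp⟩
        · rintro ⟨y, hy, rfl⟩; simpa using hy
      rw [this]
      exact e.lipschitz.isBounded_image hb)
    (fun x hx => by
      show e.symm (-x) ∈ Ω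
      rw [map_neg]
      exact hs _ hx) (by rw [hV]; exact hv)
  refine ⟨e.symm a, fun h0 => ha (by simpa using h0), fun F hF hFm hFv => ?_⟩
  have h1 := h (e.symm ⁻¹' F) (e.symm.continuous.measurable hFm) (fun x hx => hF hx)
    (by rw [hV, hV]; exact hFv)
  have h2 : {x | x ∈ e.symm ⁻¹' Ω ∧ inner ℝ a x = (0 : ℝ)} =
      e.symm ⁻¹' {x | x ∈ Ω ∧ inner ℝ (e.symm a) x = (0 : ℝ)} := by
    ext x
    simp only [Set.mem_ofPred_eq, Set.mem_preimage, LinearIsometryEquiv.inner_map_map]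
  have h3 : e.symm ⁻¹' Ω ∩ frontier (e.symm ⁻¹' F) = e.symm ⁻¹' (Ω ∩ frontier F) := by
    rw [Set.preimage_inter]
    congr 1
    exact (e.symm.toHomeomorph.preimage_frontier F).symm
  rw [h2, h3, hH, hH] at h1
  exact h1.trans (mul_le_mul_right (min_le_min_right _ (relPer_le e F Ω)) _)

end Pool.H30.HYP
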