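import Pool.Agent.H73.BV.General
import Pool.Agent.H20.KF.Full

/-!
# The hyperplane conjecture of Kannan, Lovasz and Simonovits for symmetric convex bodies

There is a universal constant `C` such that in every dimension and for every bounded convex
symmetric set of positive volume some central hyperplane section has measure at most `C` times the
relative perimeter of every subset of half the volume.  No minimality of the subset is needed.
-/

set_option autoImplicit false
set_option linter.style.haveILetI false

open MeasureTheory Measure Set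
open scoped ENNReal NNReal

namespace Pool.H30.HYP.Old

/-- The divergence of a vector field on `ℝⁿ`: the sum over the coordinates `i` of the `i`-th
coordinate of the derivative in the direction of the `i`-th basis vector. -/
noncomputable def divergence {n : ℕ}
    (φ : EuclideanSpace ℝ (Fin n) → EuclideanSpace ℝ (Fin n)) (x : EuclideanSpace ℝ (Fin n)) : ℝ :=
  ∑ i, fderiv ℝ φ x (EuclideanSpace.single i 1) i

/-- A test field on `Ω`: a vector field of class `C¹` with compact support contained in the
interior of `Ω` and with Euclidean norm at most one everywhere. -/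
structure IsTestField {n : ℕ} (Ω : Set (EuclideanSpace ℝ (Fin n)))
    (φ : EuclideanSpace ℝ (Fin n) → EuclideanSpace ℝ (Fin n)) : Prop where
  contDiff : ContDiff ℝ 1 φ
  hasCompactSupport : HasCompactSupport φ
  tsupport_subset : tsupport φ ⊆ interior Ω
  norm_le_one : ∀ x, ‖φ x‖ ≤ 1

/-- The perimeter of `F` relative to `Ω` (De Giorgi): the supremum over all test fields on `Ω` of
the integral of the divergence over `F`. -/
noncomputable def relPerimeter {n : ℕ} (F Ω : Set (EuclideanSpace ℝ (Fin n))) : ℝ≥0∞ :=
  ⨆ (φ : EuclideanSpace ℝ (Fin n) → EuclideanSpace ℝ (Fin n)) (_ : IsTestField Ω φ),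
    ENNReal.ofReal (∫ x in F, divergence φ x)

/-- **The hyperplane conjecture of Kannan, Lovasz and Simonovits.**  There is a constant `C` such
that for every `n ≥ 1` and every bounded convex symmetric set `Ω` of positive volume in `ℝⁿ` there
is `a ≠ 0` such that, for every measurable `F ⊆ Ω` of half the volume, the `(n-1)`-dimensional
measure of `Ω ∩ a^⊥` is at most `C` times the smaller of the perimeter of `F` relative to `Ω` and
the measure of the part of the topological boundary of `F` in `Ω`. -/
theorem result :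
    ∃ C : ℝ≥0, ∀ (n : ℕ) (Ω : Set (EuclideanSpace ℝ (Fin n))),
      1 ≤ n → Convex ℝ Ω → Bornology.IsBounded Ω → (∀ x ∈ Ω, -x ∈ Ω) → 0 < volume Ω →
      ∃ a : EuclideanSpace ℝ (Fin n), a ≠ 0 ∧
        ∀ F : Set (EuclideanSpace ℝ (Fin n)),
          MeasurableSet F → F ⊆ Ω → volume F = volume Ω / 2 →
            μHE[n - 1] {x | x ∈ Ω ∧ inner ℝ a x = (0 : ℝ)} ≤
              (C : ℝ≥0∞) * min (relPerimeter F Ω) (μHE[n - 1] (Ω ∩ frontier F)) := by
  obtain ⟨C, hC, H⟩ := Pool.Agent.H73.BV.general Pool.Agent.H20.KF.kls_all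
  refine ⟨Real.toNNReal C, ?_⟩
  intro n Ω hn hc hb hs hv
  obtain ⟨m, rfl⟩ : ∃ m, n = m + 1 := ⟨n - 1, by omega⟩
  obtain ⟨a, ha, h⟩ := H m Ω hc hb hs hv
  refine ⟨a, ha, ?_⟩
  intro F hF hFΩ hFv
  obtain ⟨h1, h2⟩ := h F hF hFΩ hFv
  rw [Nat.add_sub_cancel]
  rcases min_choice (relPerimeter F Ω) (μHE[m] (Ω ∩ frontier F)) with hmin | hmin
  swap
  · rw [hmin]
    exact h2
  rw [hmin]
  by_cases hP : relPerimeter F Ω = ⊤
  · rw [hP, ENNReal.mul_top]
    · exact le_top
    · simpa using hC
  · have h3 := h1 (relPerimeter F Ω).toReal fun φ hφ => by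
      have h4 : ENNReal.ofReal (∫ x in F, divergence φ x) ≤ relPerimeter F Ω :=
        le_iSup₂ (f := fun (φ : EuclideanSpace ℝ (Fin (m + 1)) → EuclideanSpace ℝ (Fin (m + 1)))
          (_ : IsTestField Ω φ) => ENNReal.ofReal (∫ x in F, divergence φ x)) φ
          ⟨hφ.smooth, hφ.comp, hφ.supp, hφ.bound⟩
      exact (ENNReal.ofReal_le_iff_le_toReal hP).1 h4
    rw [ENNReal.ofReal_mul hC.le, ENNReal.ofReal_toReal hP] at h3
    exact h3

end Pool.H30.HYP.Old
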